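import Mathlib

set_option autoImplicit false

namespace Pool.Agent.Helper34.Ch

open Matrix

/-! ### Products of a bounded number of transvections -/

section bounded

variable {n : ℕ} {K : Type} [Field K]

/-- `M` is a product of at most `N` transvections. -/
def Q (N : ℕ) (M : Matrix (Fin n) (Fin n) K) : Prop :=
  ∃ l : List (TransvectionStruct (Fin n) K), l.length ≤ N ∧
    M = (l.map TransvectionStruct.toMatrix).prod

lemma Q.mono {N N' : ℕ} {M : Matrix (Fin n) (Fin n) K} (h : Q N M) (hN : N ≤ N') : Q N' M := by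
  obtain ⟨l, hl, hM⟩ := h
  exact ⟨l, hl.trans hN, hM⟩

lemma Q.mul {a b : ℕ} {M M' : Matrix (Fin n) (Fin n) K} (h : Q a M) (h' : Q b M') :
    Q (a + b) (M * M') := by
  obtain ⟨l, hl, rfl⟩ := h
  obtain ⟨l', hl', rfl⟩ := h'
  exact ⟨l ++ l', by rw [List.length_append]; omega, by rw [List.map_append, List.prod_append]⟩

lemma Q.inv_left {a b : ℕ} {E M : Matrix (Fin n) (Fin n) K} (h : Q a E) (h' : Q b (E * M)) :
    Q (a + b) M := by
  obtain ⟨l, hl, rfl⟩ := h
  have h1 : Q a ((l.reverse.map (TransvectionStruct.toMatrix ∘ TransvectionStruct.inv)).prod) :=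
    ⟨(l.reverse.map TransvectionStruct.inv), by simpa using hl, by rw [List.map_map]⟩
  have h2 := h1.mul h'
  rwa [← Matrix.mul_assoc, TransvectionStruct.reverse_inv_prod_mul_prod, Matrix.one_mul] at h2

lemma Q.inv_right {a b : ℕ} {E M : Matrix (Fin n) (Fin n) K} (h : Q a E) (h' : Q b (M * E)) :
    Q (b + a) M := by
  obtain ⟨l, hl, rfl⟩ := h
  have h1 : Q a ((l.reverse.map (TransvectionStruct.toMatrix ∘ TransvectionStruct.inv)).prod) :=
    ⟨(l.reverse.map TransvectionStruct.inv), by simpa using hl, by rw [List.map_map]⟩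
  have h2 := h'.mul h1
  rwa [Matrix.mul_assoc, TransvectionStruct.prod_mul_reverse_inv_prod, Matrix.mul_one] at h2

lemma Q_one : Q 0 (1 : Matrix (Fin n) (Fin n) K) := ⟨[], le_refl _, by simp⟩

lemma Q_transvection {i j : Fin n} (h : i ≠ j) (c : K) : Q 1 (transvection i j c) :=
  ⟨[⟨i, j, h, c⟩], by simp, by simp⟩

lemma Q.det {N : ℕ} {M : Matrix (Fin n) (Fin n) K} (h : Q N M) : M.det = 1 := by
  obtain ⟨l, _, rfl⟩ := h
  exact TransvectionStruct.det_toMatrix_prod l

/-- `M` is the identity outside `J × J`. -/
def Near (J : Finset (Fin n)) (M : Matrix (Fin n) (Fin n) K) : Prop :=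
  ∀ i j, (i ∉ J ∨ j ∉ J) → M i j = if i = j then 1 else 0

lemma Near.left {J : Finset (Fin n)} {M : Matrix (Fin n) (Fin n) K} (h : Near J M) {i j : Fin n}
    (hi : i ∈ J) (hj : j ∈ J) (c : K) : Near J (transvection i j c * M) := by
  intro a b hab
  by_cases ha : a = i
  · subst ha
    have hb : b ∉ J := by
      rcases hab with h | h
      · exact absurd hi h
      · exact h
    rw [transvection_mul_apply_same, h a b (Or.inr hb), h j b (Or.inr hb)]
    have h1 : j ≠ b := fun h => hb (h ▸ hj)
    simp [h1]
  · rw [transvection_mul_apply_of_ne _ _ _ _ ha]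
    exact h a b hab

lemma Near.right {J : Finset (Fin n)} {M : Matrix (Fin n) (Fin n) K} (h : Near J M) {i j : Fin n}
    (hi : i ∈ J) (hj : j ∈ J) (c : K) : Near J (M * transvection i j c) := by
  intro a b hab
  by_cases hb : b = j
  · subst hb
    have ha : a ∉ J := by
      rcases hab with h | h
      · exact h
      · exact absurd hj h
    rw [mul_transvection_apply_same, h a b (Or.inl ha), h a i (Or.inl ha)]
    have h1 : a ≠ i := fun h => ha (h ▸ hi)
    simp [h1]
  · rw [mul_transvection_apply_of_ne _ _ _ _ hb]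
    exact h a b hab

lemma clear_col {J : Finset (Fin n)} {o : Fin n} (ho : o ∈ J) {M : Matrix (Fin n) (Fin n) K}
    (hM : Near J M) (h1 : M o o = 1) (I : Finset (Fin n)) (hI : I ⊆ J) (hoI : o ∉ I) :
    ∃ E : Matrix (Fin n) (Fin n) K, Q I.card E ∧ Near J (E * M) ∧ (∀ i ∈ I, (E * M) i o = 0) ∧
      (∀ i, i ∉ I → ∀ b, (E * M) i b = M i b) := by
  induction I using Finset.induction_on with
  | empty => exact ⟨1, by simpa using Q_one, by simpa using hM, by simp, by simp⟩
  | insert i0 I hi0 ih =>
    obtain ⟨E, hE, hN, hz, hr⟩ := ih (fun x hx => hI (Finset.mem_insert_of_mem hx))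
      (fun h => hoI (Finset.mem_insert_of_mem h))
    have hoI' : o ∉ I := fun h => hoI (Finset.mem_insert_of_mem h)
    have hi0J : i0 ∈ J := hI (Finset.mem_insert_self _ _)
    have hne : i0 ≠ o := fun h => hoI (h ▸ Finset.mem_insert_self _ _)
    refine ⟨transvection i0 o (-(E * M) i0 o) * E, ?_, ?_, ?_, ?_⟩
    · rw [Finset.card_insert_of_notMem hi0, add_comm]
      exact (Q_transvection hne _).mul hE
    · rw [Matrix.mul_assoc]
      exact hN.left hi0J ho _
    · intro i hi
      rw [Matrix.mul_assoc]
      rcases Finset.mem_insert.1 hi with rfl | hi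
      · rw [transvection_mul_apply_same, hr o hoI' o, h1]
        ring
      · have hii : i ≠ i0 := fun h => hi0 (h ▸ hi)
        rw [transvection_mul_apply_of_ne _ _ _ _ hii]
        exact hz i hi
    · intro i hi b
      have hii : i ≠ i0 := fun h => hi (h ▸ Finset.mem_insert_self _ _)
      rw [Matrix.mul_assoc, transvection_mul_apply_of_ne _ _ _ _ hii]
      exact hr i (fun h => hi (Finset.mem_insert_of_mem h)) b

lemma clear_row {J : Finset (Fin n)} {o : Fin n} (ho : o ∈ J) {M : Matrix (Fin n) (Fin n) K}
    (hM : Near J M) (h1 : M o o = 1) (I : Finset (Fin n)) (hI : I ⊆ J) (hoI : o ∉ I) :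
    ∃ E : Matrix (Fin n) (Fin n) K, Q I.card E ∧ Near J (M * E) ∧ (∀ j ∈ I, (M * E) o j = 0) ∧
      (∀ j, j ∉ I → ∀ a, (M * E) a j = M a j) := by
  induction I using Finset.induction_on with
  | empty => exact ⟨1, by simpa using Q_one, by simpa using hM, by simp, by simp⟩
  | insert j0 I hj0 ih =>
    obtain ⟨E, hE, hN, hz, hr⟩ := ih (fun x hx => hI (Finset.mem_insert_of_mem hx))
      (fun h => hoI (Finset.mem_insert_of_mem h))
    have hoI' : o ∉ I := fun h => hoI (Finset.mem_insert_of_mem h)
    have hj0J : j0 ∈ J := hI (Finset.mem_insert_self _ _)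
    have hne : j0 ≠ o := fun h => hoI (h ▸ Finset.mem_insert_self _ _)
    refine ⟨E * transvection o j0 (-(M * E) o j0), ?_, ?_, ?_, ?_⟩
    · rw [Finset.card_insert_of_notMem hj0]
      exact hE.mul (Q_transvection hne.symm _)
    · rw [← Matrix.mul_assoc]
      exact hN.right ho hj0J _
    · intro j hj
      rw [← Matrix.mul_assoc]
      rcases Finset.mem_insert.1 hj with rfl | hj
      · rw [mul_transvection_apply_same, hr o hoI' o, h1]
        ring
      · have hjj : j ≠ j0 := fun h => hj0 (h ▸ hj)
        rw [mul_transvection_apply_of_ne _ _ _ _ hjj]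
        exact hz j hj
    · intro j hj a
      have hjj : j ≠ j0 := fun h => hj (h ▸ Finset.mem_insert_self _ _)
      rw [← Matrix.mul_assoc, mul_transvection_apply_of_ne _ _ _ _ hjj]
      exact hr j (fun h => hj (Finset.mem_insert_of_mem h)) a

/-- Make the diagonal entry equal to one. -/
lemma make_one {J : Finset (Fin n)} {o k0 : Fin n} (ho : o ∈ J) (hk0 : k0 ∈ J) (hne : k0 ≠ o)
    {M : Matrix (Fin n) (Fin n) K} (hM : Near J M) (hdet : M.det ≠ 0) :
    ∃ E : Matrix (Fin n) (Fin n) K, Q 2 E ∧ Near J (E * M) ∧ (E * M) o o = 1 := by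
  have step : ∀ M : Matrix (Fin n) (Fin n) K, Near J M → ∀ k ∈ J, k ≠ o → M k o ≠ 0 →
      ∃ E : Matrix (Fin n) (Fin n) K, Q 1 E ∧ Near J (E * M) ∧ (E * M) o o = 1 := by
    intro M hM k hk hko hMk
    refine ⟨transvection o k ((1 - M o o) / M k o), Q_transvection hko.symm _,
      hM.left ho hk _, ?_⟩
    rw [transvection_mul_apply_same, div_mul_cancel₀ _ hMk]
    ring
  by_cases h : ∃ k ∈ J, k ≠ o ∧ M k o ≠ 0
  · obtain ⟨k, hk, hko, hMk⟩ := h
    obtain ⟨E, h1, h2, h3⟩ := step M hM k hk hko hMk
    exact ⟨E, h1.mono (by norm_num), h2, h3⟩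
  · push Not at h
    have hMo : M o o ≠ 0 := by
      intro h0
      apply hdet
      apply Matrix.det_eq_zero_of_column_eq_zero o
      intro i
      by_cases hi : i ∈ J
      · by_cases hio : i = o
        · rw [hio]; exact h0
        · exact h i hi hio
      · rw [hM i o (Or.inl hi), if_neg]
        intro hio
        exact hi (hio ▸ ho)
    have hN1 := hM.left (i := k0) (j := o) hk0 ho 1
    have hk1 : (transvection k0 o (1 : K) * M : Matrix (Fin n) (Fin n) K) k0 o ≠ 0 := by
      rw [transvection_mul_apply_same, h k0 hk0 hne]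
      simpa using hMo
    obtain ⟨E, h1, h2, h3⟩ := step _ hN1 k0 hk0 hne hk1
    refine ⟨E * transvection k0 o 1, h1.mul (Q_transvection hne _), ?_, ?_⟩
    · rwa [Matrix.mul_assoc]
    · rwa [Matrix.mul_assoc]

end bounded

lemma bound {n : ℕ} (J : Finset (Fin n)) : ∃ N : ℕ, ∀ (K : Type) [Field K]
    (M : Matrix (Fin n) (Fin n) K), M.det = 1 → Near J M → Q N M := by
  induction J using Finset.induction_on with
  | empty =>
    refine ⟨0, fun K _ M _ hM => ?_⟩
    have : M = 1 := by
      ext i j
      rw [hM i j (Or.inl (by simp)), Matrix.one_apply]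
    rw [this]
    exact Q_one
  | insert o J hoJ ih =>
    obtain ⟨N, hN⟩ := ih
    rcases J.eq_empty_or_nonempty with hJ | ⟨k0, hk0⟩
    · refine ⟨0, fun K _ M hdet hM => ?_⟩
      subst hJ
      have hdiag : M = Matrix.diagonal (fun i => if i = o then M o o else 1) := by
        ext i j
        by_cases hi : i = o
        · by_cases hj : j = o
          · subst hi; subst hj; simp
          · rw [hM i j (Or.inr (by simpa using hj)), Matrix.diagonal_apply, if_neg, if_neg]
            · intro h; exact hj (h ▸ hi)
            · intro h; exact hj (h ▸ hi)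
        · rw [hM i j (Or.inl (by simpa using hi)), Matrix.diagonal_apply]
          simp [hi]
      have h1 : M o o = 1 := by
        rw [hdiag, Matrix.det_diagonal] at hdet
        rw [Finset.prod_ite_eq'] at hdet
        simpa using hdet
      have : M = 1 := by
        rw [hdiag, h1]
        ext i j
        simp [Matrix.diagonal_apply, Matrix.one_apply]
      rw [this]
      exact Q_one
    · have hk0o : k0 ≠ o := fun h => hoJ (h ▸ hk0)
      refine ⟨2 + (J.card + (N + J.card)), fun K _ M hdet hM => ?_⟩
      obtain ⟨E, hE, hEN, hE1⟩ := make_one (Finset.mem_insert_self o J)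
        (Finset.mem_insert_of_mem hk0) hk0o hM (by rw [hdet]; exact one_ne_zero)
      refine hE.inv_left ?_
      obtain ⟨E', hE', hEN', hz', hr'⟩ := clear_col (Finset.mem_insert_self o J) hEN hE1 J
        (Finset.subset_insert _ _) hoJ
      refine hE'.inv_left ?_
      have h1 : (E' * (E * M)) o o = 1 := by rw [hr' o hoJ o, hE1]
      obtain ⟨F, hF, hFN, hzF, hrF⟩ := clear_row (Finset.mem_insert_self o J) hEN' h1 J
        (Finset.subset_insert _ _) hoJ
      refine hF.inv_right ?_
      apply hN
      · rw [Matrix.det_mul, Matrix.det_mul, Matrix.det_mul, hE.det, hE'.det, hF.det, hdet]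
        ring
      · intro i j hij
        by_cases h : i ∉ insert o J ∨ j ∉ insert o J
        · exact hFN i j h
        · push Not at h
          obtain ⟨hi, hj⟩ := h
          rcases hij with hi' | hj'
          · have hio : i = o := by
              rcases Finset.mem_insert.1 hi with h | h
              · exact h
              · exact absurd h hi'
            subst hio
            rcases Finset.mem_insert.1 hj with h | h
            · subst h
              rw [hrF j hoJ j, h1, if_pos rfl]
            · rw [hzF j h, if_neg]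
              intro h'; exact hoJ (h' ▸ h)
          · have hjo : j = o := by
              rcases Finset.mem_insert.1 hj with h | h
              · exact h
              · exact absurd h hj'
            subst hjo
            rw [hrF j hoJ i]
            rcases Finset.mem_insert.1 hi with h | h
            · subst h
              rw [h1, if_pos rfl]
            · rw [hz' i h, if_neg]
              intro h'; exact hoJ (h' ▸ h)

/-! ### From bounded products to a fixed pattern -/

/-- `M` is a product of transvections along the pattern `L`. -/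
def P {n : ℕ} {K : Type} [Field K] (L : List {q : Fin n × Fin n // q.1 ≠ q.2})
    (M : Matrix (Fin n) (Fin n) K) : Prop :=
  ∃ a : List K, a.length = L.length ∧
    M = ((L.zip a).map (fun z => Matrix.transvection z.1.1.1 z.1.1.2 z.2)).prod

lemma P.append {n : ℕ} {K : Type} [Field K] {L L' : List {q : Fin n × Fin n // q.1 ≠ q.2}}
    {M M' : Matrix (Fin n) (Fin n) K} (h : P L M) (h' : P L' M') : P (L ++ L') (M * M') := by
  obtain ⟨a, ha, rfl⟩ := h
  obtain ⟨a', ha', rfl⟩ := h'
  refine ⟨a ++ a', by simp [ha, ha'], ?_⟩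
  rw [List.zip_append ha.symm, List.map_append, List.prod_append]

lemma P_map {n : ℕ} {K : Type} [Field K] (L : List {q : Fin n × Fin n // q.1 ≠ q.2})
    (f : {q : Fin n × Fin n // q.1 ≠ q.2} → K) :
    P L ((L.map (fun q => Matrix.transvection q.1.1 q.1.2 (f q))).prod) := by
  refine ⟨L.map f, by simp, ?_⟩
  congr 1
  induction L with
  | nil => simp
  | cons q L ih =>
    simp only [List.map_cons, List.zip_cons_cons]
    rw [ih]

/-- The list of all pairs. -/
noncomputable def allPairs (n : ℕ) : List {q : Fin n × Fin n // q.1 ≠ q.2} :=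
  (Finset.univ : Finset {q : Fin n × Fin n // q.1 ≠ q.2}).toList

lemma P_one {n : ℕ} {K : Type} [Field K] (L : List {q : Fin n × Fin n // q.1 ≠ q.2}) :
    P L (1 : Matrix (Fin n) (Fin n) K) := by
  have h := P_map L (fun _ => (0 : K))
  simpa using h

lemma prod_single {α M : Type*} [Monoid M] (l : List α) (hl : l.Nodup) (a : α)
    (ha : a ∈ l) (f : α → M) (hf : ∀ b, b ≠ a → f b = 1) : (l.map f).prod = f a := by
  induction l with
  | nil => simp at ha
  | cons b l ih =>
    rw [List.map_cons, List.prod_cons]
    rw [List.nodup_cons] at hl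
    by_cases hba : b = a
    · subst hba
      rw [List.prod_eq_one, mul_one]
      intro x hx
      obtain ⟨c, hc, rfl⟩ := List.mem_map.1 hx
      exact hf c (fun h => hl.1 (h ▸ hc))
    · rw [hf b hba, one_mul]
      refine ih hl.2 ?_
      rcases List.mem_cons.1 ha with h | h
      · exact absurd h.symm hba
      · exact h

lemma P_struct {n : ℕ} {K : Type} [Field K] (t : TransvectionStruct (Fin n) K) :
    P (allPairs n) t.toMatrix := by
  set q0 : {q : Fin n × Fin n // q.1 ≠ q.2} := ⟨(t.i, t.j), t.hij⟩ with hq0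
  have h := P_map (allPairs n) (fun q => if q = q0 then t.c else 0)
  rw [prod_single (allPairs n) (Finset.nodup_toList _) q0 (by simp [allPairs])] at h
  · simpa [hq0, TransvectionStruct.toMatrix] using h
  · intro q hq
    simp [hq]

lemma P_of_Q {n : ℕ} {K : Type} [Field K] (N : ℕ) {M : Matrix (Fin n) (Fin n) K} (h : Q N M) :
    P (List.replicate N (allPairs n)).flatten M := by
  obtain ⟨l, hl, rfl⟩ := h
  induction l generalizing N with
  | nil => simpa using P_one _
  | cons t l ih =>
    obtain ⟨N, rfl⟩ : ∃ N', N = N' + 1 := ⟨N - 1, by simp at hl; omega⟩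
    rw [List.replicate_succ, List.flatten_cons, List.map_cons, List.prod_cons]
    exact (P_struct t).append (ih N (by simpa using hl))

/-- Bounded generation of `SL_n` over a field with a pattern independent of the field. -/
theorem bounded_generation (n : ℕ) :
    ∃ L : List {q : Fin n × Fin n // q.1 ≠ q.2}, ∀ (K : Type) [Field K]
      (g : Matrix.SpecialLinearGroup (Fin n) K),
      ∃ a : List K, a.length = L.length ∧
        (g : Matrix (Fin n) (Fin n) K) =
          ((L.zip a).map (fun z => Matrix.transvection z.1.1.1 z.1.1.2 z.2)).prod := by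
  obtain ⟨N, hN⟩ := bound (Finset.univ : Finset (Fin n))
  refine ⟨(List.replicate N (allPairs n)).flatten, fun K _ g => ?_⟩
  exact P_of_Q N (hN K g g.2 (fun i j h => by simp at h))

end Pool.Agent.Helper34.Ch
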